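import Pool.Agent.Q120.EC.Fibre

/-!
# The effective cones of hypersurfaces of large degree do not satisfy a Lefschetz principle

Let `Y = P^(n-1) x P^1` with `n ≥ 4` (so `dim Y = n`) and let `A = O(p, q)` be any ample divisor.
For every `d` with `d q + 1 ≥ n` and a very general `X` in `|d A|` (outside one hypersurface of
`|d A|`) the push-forward `N_k(X) → N_k(Y)` does not map `Eff_k(X)` onto `Eff_k(Y)`, for any `k` with
`1 ≤ k ≤ n - 1`.

The class of `P^(k-1) x P^1` is effective on `Y`. If `F = Σ f_j s^j t^(dq-j)` is the equation of `X`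
and the `f_j` have no common zero, all subvarieties `Z` of dimension `k` in `X` satisfy
`Z.H_1^(k-1).H_2 ≤ d p (Z.H_1^k)`: if `f_J` is the last coefficient which is not zero on `Z`, then
`f_J / t = - (...) / s^J` is a non-zero section of `O_Z(d p, -1)`. The class of `P^(k-1) x P^1`
violates this.
-/

set_option autoImplicit false

namespace Pool.Agent.Results.MP_f4858a_ag.ProductCounterexample

open MvPolynomial Pool.Agent.Q120.EC

/-- A subvariety `Z` of dimension `k` of `Y = P^(n-1) x P^1`: a bihomogeneous prime ideal of the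
bigraded coordinate ring such that the dimension of the part of bidegree `(a, b)` of the quotient
is, for all large `a, b`, a polynomial of degree `k` with top part
`(deg₀ a^k + k deg₁ a^(k-1) b) / k!`. Here `deg₀ = Z.H_1^k` and `deg₁ = Z.H_1^(k-1).H_2`. -/
structure Subvariety (n k : ℕ) where
  /-- The ideal of the subvariety. -/
  ideal : Ideal (MvPolynomial (Var n) ℂ)
  prime : ideal.IsPrime
  bihomogeneous : ∀ f ∈ ideal, ∀ a b, weightedHomogeneousComponent (bideg n) (a, b) f ∈ ideal
  /-- The number `Z.H_1^k`. -/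
  deg₀ : ℕ
  /-- The number `Z.H_1^(k-1).H_2`. -/
  deg₁ : ℕ
  dim_eq : deg₀ ≠ 0 ∨ deg₁ ≠ 0
  hilbert : HilbertTop k (fun a b => Module.finrank ℂ (part ideal a b)) deg₀ deg₁

/-- The class of a subvariety in `N_k(Y) = ℝ²`, with the coordinates `z.H_1^k` and
`z.H_1^(k-1).H_2`. -/
def Subvariety.cls {n k : ℕ} (Z : Subvariety n k) : ℝ × ℝ := (Z.deg₀, Z.deg₁)

/-- The closed convex cone generated by a family of vectors. -/
def eff {ι E : Type} [NormedAddCommGroup E] [NormedSpace ℝ E] (c : ι → E) : Set E :=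
  closure (Submodule.span NNReal (Set.range c) : Set E)

/-- The subvariety `P^(k-1) x P^1`. -/
noncomputable def linear {n k : ℕ} (hk1 : 1 ≤ k) (hk : k ≤ n) : Subvariety n k where
  ideal := fib n k
  prime := fib_prime n k
  bihomogeneous := fun f hf a b => fib_homog f hf a b
  deg₀ := 0
  deg₁ := 1
  dim_eq := Or.inr one_ne_zero
  hilbert := fib_hilbert hk1 hk

theorem result (n p q d : ℕ) (hn : 4 ≤ n) (hp : 1 ≤ p) (hd : 1 ≤ d)
    (hnd : n ≤ d * q + 1) :
    ∃ (r : ℕ) (Φ : MvPolynomial (Var n →₀ ℕ) ℂ), Φ.IsHomogeneous r ∧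
      (∃ F ∈ forms n (d * p) (d * q), value Φ F ≠ 0) ∧
      ∀ F ∈ forms n (d * p) (d * q), value Φ F ≠ 0 → ∀ k : ℕ, 1 ≤ k → k ≤ n - 1 →
        ∀ (N : Type) [NormedAddCommGroup N] [NormedSpace ℝ N] [FiniteDimensional ℝ N]
          (cl : {Z : Subvariety n k // F ∈ Z.ideal} → N) (push : N →ₗ[ℝ] ℝ × ℝ),
          (∀ Z, push (cl Z) = Z.1.cls) →
            push '' (eff cl) ≠ eff (Subvariety.cls : Subvariety n k → ℝ × ℝ) := by
  obtain ⟨r, Φ, hΦ, h0, hgen⟩ := exists_general n (d * p) (d * q)
    (Nat.one_le_iff_ne_zero.2 (Nat.mul_ne_zero (by omega) (by omega))) hnd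
  refine ⟨r, Φ, hΦ, h0, ?_⟩
  intro F hF hval k hk1 hk N _ _ _ cl push hpush heq
  have h1 : ((0 : ℝ), (1 : ℝ)) ∈ eff (Subvariety.cls : Subvariety n k → ℝ × ℝ) := by
    apply subset_closure
    apply Submodule.subset_span
    refine ⟨linear hk1 (by omega), ?_⟩
    simp [Subvariety.cls, linear]
  rw [← heq] at h1
  obtain ⟨z, hz, hpz⟩ := h1
  have hcont : Continuous push := LinearMap.continuous_of_finiteDimensional push
  have hcl : IsClosed {w : N | (push w).2 ≤ ((d * p : ℕ) : ℝ) * (push w).1} :=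
    isClosed_le (continuous_snd.comp hcont) (continuous_const.mul (continuous_fst.comp hcont))
  have hsub : (Submodule.span NNReal (Set.range cl) : Set N) ⊆
      {w : N | (push w).2 ≤ ((d * p : ℕ) : ℝ) * (push w).1} := by
    intro w hw
    change (push w).2 ≤ ((d * p : ℕ) : ℝ) * (push w).1
    induction hw using Submodule.span_induction with
    | mem x hx =>
      obtain ⟨Z, rfl⟩ := hx
      rw [hpush Z]
      have h2 := degree_le Z.1.prime hF Z.2 (hgen F hF hval) hnd Z.1.dim_eq Z.1.hilbert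
      have h3 : ((Z.1.deg₁ : ℕ) : ℝ) ≤ ((d * p * Z.1.deg₀ : ℕ) : ℝ) := by exact_mod_cast h2
      rw [Nat.cast_mul] at h3
      exact h3
    | zero => simp
    | add x y _ _ hx hy =>
      rw [map_add, Prod.fst_add, Prod.snd_add, mul_add]
      exact add_le_add hx hy
    | smul a x _ hx =>
      have e : push (a • x) = (a : ℝ) • push x := by
        rw [NNReal.smul_def, map_smul]
      rw [e, Prod.smul_fst, Prod.smul_snd, smul_eq_mul, smul_eq_mul]
      have ha : (0 : ℝ) ≤ (a : ℝ) := a.2
      calc (a : ℝ) * (push x).2 ≤ (a : ℝ) * (((d * p : ℕ) : ℝ) * (push x).1) :=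
            mul_le_mul_of_nonneg_left hx ha
        _ = ((d * p : ℕ) : ℝ) * ((a : ℝ) * (push x).1) := by ring
  have h4 : (push z).2 ≤ ((d * p : ℕ) : ℝ) * (push z).1 := closure_minimal hsub hcl hz
  rw [hpz] at h4
  norm_num at h4

end Pool.Agent.Results.MP_f4858a_ag.ProductCounterexample
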